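import Mathlib
import Pool.Agent.Y859.SI.Fin

set_option autoImplicit false

/-!
# Almost prime congruent numbers of the classes `5, 6, 7` modulo `8` in short intervals

Let `2/3 < θ ≤ 17/24` and `r ∈ {5, 6, 7}`.  There is `R` such that for all large `X`, every modulus
`M ≤ X ^ ((θ - 2/3)/14)` and every residue class `a` modulo `M` which contains a squarefree number
`≡ r` modulo `8`, the interval `[X, X + X ^ θ]` contains at least `X ^ (1/12)` squarefree congruent
numbers `n ≡ r` modulo `8` of the class with `n = (a, M) m`, where `m` has at most `R` prime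
factors, the odd ones larger than `X ^ (1 / R)`.

Proof.  The numbers are `n = b (x ^ 2 - Q b) (x ^ 2 + Q b)` with a square `Q` divisible by `8 M` and
by all primes up to `64`, `x ≡ 1` modulo `Q` the first admissible integer and `b` in a window of
`X ^ (1/12 + c)` consecutive members of a class modulo `Q` near the maximum `x ^ 2 / (√3 Q)` (the
construction of helper827 and helper999).  The class of `b` is `≡ r` modulo `8` and prime to the
primes up to `64` outside `2 M`.  The fundamental lemma of the sieve removes the `b` for which one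
of the three linear forms has a prime factor `p ≤ X ^ (1/(12 K))` outside `Q`; the squares of the
larger primes are removed by second differences, with a power saving.
-/

namespace Pool.Agent.Results.MP_8efaaa_nt.AlmostPrimeIntervals

/-- `x² + a y² = z²`, `x² - a y² = t²` is solvable in positive integers -/
def Congruent (a : ℕ) : Prop :=
  ∃ x y z t : ℕ, 0 < x ∧ 0 < y ∧ 0 < z ∧ 0 < t ∧ x ^ 2 + a * y ^ 2 = z ^ 2 ∧
    x ^ 2 = a * y ^ 2 + t ^ 2

/-- `m` has at most `R` prime factors (with multiplicity), the odd ones larger than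
`X ^ (1 / R)` -/
def AlmostPrime (R : ℕ) (X : ℝ) (m : ℕ) : Prop :=
  m.primeFactorsList.length ≤ R ∧
    ∀ p : ℕ, p.Prime → p ≠ 2 → p ∣ m → X ^ (1 / (R : ℝ)) < (p : ℝ)

lemma congruent_of (n : ℕ) (h : Pool.Agent.Y859.SI.Cong n) : Congruent n := by
  obtain ⟨a, b, c, ha, hb, hc, h1, h2⟩ := h
  -- common denominator
  obtain ⟨A, B, C, D, hA, hB, hC, hD, eA, eB, eC⟩ : ∃ A B C D : ℕ, 0 < A ∧ 0 < B ∧ 0 < C ∧
      0 < D ∧ a = (A : ℚ) / D ∧ b = (B : ℚ) / D ∧ c = (C : ℚ) / D := by
    have na : (0 : ℤ) < a.num := Rat.num_pos.2 ha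
    have nb : (0 : ℤ) < b.num := Rat.num_pos.2 hb
    have nc : (0 : ℤ) < c.num := Rat.num_pos.2 hc
    have ea : ((a.num.natAbs : ℕ) : ℚ) = a.num := by
      rw [Nat.cast_natAbs, abs_of_pos na]
    have eb : ((b.num.natAbs : ℕ) : ℚ) = b.num := by
      rw [Nat.cast_natAbs, abs_of_pos nb]
    have ec : ((c.num.natAbs : ℕ) : ℚ) = c.num := by
      rw [Nat.cast_natAbs, abs_of_pos nc]
    have da : (a.den : ℚ) ≠ 0 := by exact_mod_cast a.den_nz
    have db : (b.den : ℚ) ≠ 0 := by exact_mod_cast b.den_nz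
    have dc : (c.den : ℚ) ≠ 0 := by exact_mod_cast c.den_nz
    have qa := Rat.num_div_den a
    have qb := Rat.num_div_den b
    have qc := Rat.num_div_den c
    refine ⟨a.num.natAbs * (b.den * c.den), b.num.natAbs * (a.den * c.den),
      c.num.natAbs * (a.den * b.den), a.den * b.den * c.den, ?_, ?_, ?_, ?_, ?_, ?_, ?_⟩
    · have := a.pos; have := b.pos; have := c.pos
      have : 0 < a.num.natAbs := by omega
      positivity
    · have := a.pos; have := b.pos; have := c.pos
      have : 0 < b.num.natAbs := by omega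
      positivity
    · have := a.pos; have := b.pos; have := c.pos
      have : 0 < c.num.natAbs := by omega
      positivity
    · have := a.pos; have := b.pos; have := c.pos
      positivity
    · push_cast
      rw [ea]
      nth_rewrite 1 [← qa]
      field_simp
    · push_cast
      rw [eb]
      nth_rewrite 1 [← qb]
      field_simp
    · push_cast
      rw [ec]
      nth_rewrite 1 [← qc]
      field_simp
  have hDq : (D : ℚ) ≠ 0 := by positivity
  rw [eA, eB, eC] at h1
  rw [eA, eB] at h2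
  have g1 : A ^ 2 + B ^ 2 = C ^ 2 := by
    have : (A : ℚ) ^ 2 + (B : ℚ) ^ 2 = (C : ℚ) ^ 2 := by
      field_simp at h1
      exact h1
    exact_mod_cast this
  have g2 : 2 * n * D ^ 2 = A * B := by
    have : 2 * (n : ℚ) * (D : ℚ) ^ 2 = A * B := by
      field_simp at h2
      linarith
    exact_mod_cast this
  have hne : A ≠ B := by
    intro hAB
    rw [hAB] at g1
    have g3 : (2 : ℕ) * B ^ 2 = C ^ 2 := by omega
    have h4 : Irrational (Real.sqrt 2) := irrational_sqrt_two
    apply h4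
    refine ⟨(C : ℚ) / B, ?_⟩
    have hB' : (B : ℝ) ≠ 0 := by positivity
    push_cast
    symm
    rw [Real.sqrt_eq_iff_mul_self_eq (by norm_num) (by positivity)]
    have : (2 : ℝ) * (B : ℝ) ^ 2 = (C : ℝ) ^ 2 := by exact_mod_cast g3
    field_simp
    linarith
  rcases lt_or_gt_of_ne hne with hlt | hlt
  · obtain ⟨s, rfl⟩ := Nat.exists_eq_add_of_lt hlt
    refine ⟨C, 2 * D, 2 * A + s + 1, s + 1, hC, by positivity, by positivity, by positivity, ?_, ?_⟩
    · nlinarith
    · nlinarith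
  · obtain ⟨s, rfl⟩ := Nat.exists_eq_add_of_lt hlt
    refine ⟨C, 2 * D, 2 * B + s + 1, s + 1, hC, by positivity, by positivity, by positivity, ?_, ?_⟩
    · nlinarith
    · nlinarith

/-- **Almost prime congruent numbers of the classes `5, 6, 7` modulo `8` in short intervals, in all
classes to moduli up to a power.**  Let `2/3 < θ ≤ 17/24`.  There are `R` and `X₀` such that for all
real `X ≥ X₀`, all moduli `1 ≤ M ≤ X ^ ((θ - 2/3)/14)`, all `r ∈ {5, 6, 7}` and all `a` whose
residue class modulo `M` contains a squarefree number `≡ r` modulo `8`, at least `X ^ (1/12)`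
integers `n` in `[X, X + X ^ θ]` are squarefree congruent numbers with `n ≡ r` modulo `8`, `n ≡ a`
modulo `M` and `n = (a, M) m`, where `m` has at most `R` prime factors, the odd ones larger than
`X ^ (1 / R)`. -/
theorem result (θ : ℝ) (hθ : 2 / 3 < θ) (hθ1 : θ ≤ 17 / 24) :
    ∃ R : ℕ, 1 ≤ R ∧ ∃ X₀ : ℝ, ∀ X : ℝ, X₀ ≤ X →
      ∀ M : ℕ, 0 < M → (M : ℝ) ≤ X ^ ((θ - 2 / 3) / 14) →
      ∀ r : ℕ, (r = 5 ∨ r = 6 ∨ r = 7) →
      ∀ a : ℕ, (∃ k : ℕ, Squarefree k ∧ k % 8 = r ∧ k ≡ a [MOD M]) →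
        X ^ (1 / 12 : ℝ) ≤ ({n : ℕ | X ≤ n ∧ (n : ℝ) ≤ X + X ^ θ ∧ Squarefree n ∧ n % 8 = r ∧
          n ≡ a [MOD M] ∧ Congruent n ∧
          ∃ m, n = Nat.gcd a M * m ∧ AlmostPrime R X m}.ncard : ℝ) := by
  obtain ⟨R, hR, X₀, h⟩ := Pool.Agent.Y859.SI.main θ hθ hθ1
  refine ⟨R, hR, X₀, ?_⟩
  intro X hX M hM0 hMX r _ a ⟨k, hk, hkr, hka⟩
  refine (h X hX M hM0 hMX k hk).trans ?_
  have hfin : {n : ℕ | X ≤ n ∧ (n : ℝ) ≤ X + X ^ θ ∧ Squarefree n ∧ n % 8 = r ∧
      n ≡ a [MOD M] ∧ Congruent n ∧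
      ∃ m, n = Nat.gcd a M * m ∧ AlmostPrime R X m}.Finite := by
    apply (Set.finite_Iic ⌊X + X ^ θ⌋₊).subset
    intro n hn
    exact Nat.le_floor hn.2.1
  have hsub : {n : ℕ | X ≤ n ∧ (n : ℝ) ≤ X + X ^ θ ∧ Squarefree n ∧
      n ≡ k [MOD 8 * M] ∧ Pool.Agent.Y859.SI.Cong n ∧
      ∃ m, n = Nat.gcd k M * m ∧ Pool.Agent.Y859.SI.Few R X m} ⊆
      {n : ℕ | X ≤ n ∧ (n : ℝ) ≤ X + X ^ θ ∧ Squarefree n ∧ n % 8 = r ∧
        n ≡ a [MOD M] ∧ Congruent n ∧ ∃ m, n = Nat.gcd a M * m ∧ AlmostPrime R X m} := by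
    intro n hn
    obtain ⟨h1, h2, h3, h4, h5, m, h6, h7, h8⟩ := hn
    have hr : n % 8 = r := by
      have h9 : n ≡ k [MOD 8] := h4.of_dvd (Dvd.intro _ rfl)
      have h10 : n % 8 = k % 8 := h9
      omega
    have hg : Nat.gcd k M = Nat.gcd a M := hka.gcd_eq
    rw [hg] at h6
    exact ⟨h1, h2, h3, hr, (h4.of_dvd (Dvd.intro_left 8 rfl)).trans hka, congruent_of n h5,
      m, h6, h7, h8⟩
  exact_mod_cast Set.ncard_le_ncard hsub hfin

end Pool.Agent.Results.MP_8efaaa_nt.AlmostPrimeIntervals
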