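import Mathlib
import Pool.Agent.Y859.MU.Fin

set_option autoImplicit false

/-!
# Congruent numbers in the classes `5, 6, 7` modulo `8` with a prescribed divisor

Every squarefree `B ≤ X ^ (1/2 - ε)` that can divide a squarefree number of the class `r ∈ {5, 6, 7}`
modulo `8` (odd if `r` is odd) divides at least `X ^ (1/2 - ε) / B` squarefree congruent numbers
`n ≤ X` of this class, the quotient `n / B` being almost prime up to the factor `2`.

Proof.  Let `B'` be the odd part of `B`.  The pigeonhole principle gives two primes `a ≡ b` modulo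
`8` of size `X ^ δ` with the same quadratic character modulo all prime factors of `B'`.  With
`e = 8` (odd classes) or `e = 16` (even classes) the congruences `a s ^ 2 = b t ^ 2` modulo `B'` and
`a s ^ 2 = b t ^ 2 (1 + e u)` modulo `8 e` define a lattice of index `8 e B'` in the plane, on which
`F = (a s ^ 2 - b t ^ 2) / (e B')` and `G = (a s ^ 2 + b t ^ 2) / 2` are odd integers and
`(e / 8) a b B' F G` is a congruent number up to squares.  A reduced basis, a uniform sieve for two
quadratic polynomials on a line of the lattice, and the replacement of `B` by `B q` with primes `q`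
give the theorem.
-/

namespace Pool.Agent.Results.MP_8efaaa_nt.EveryDivisor

/-- `x² + a y² = z²`, `x² - a y² = t²` is solvable in positive integers -/
def Congruent (a : ℕ) : Prop :=
  ∃ x y z t : ℕ, 0 < x ∧ 0 < y ∧ 0 < z ∧ 0 < t ∧ x ^ 2 + a * y ^ 2 = z ^ 2 ∧
    x ^ 2 = a * y ^ 2 + t ^ 2

/-- `m` has at most `R` prime factors (with multiplicity), the odd ones larger than
`X ^ (1 / R)` -/
def AlmostPrime (R X m : ℕ) : Prop :=
  m.primeFactorsList.length ≤ R ∧
    ∀ p : ℕ, p.Prime → p ≠ 2 → p ∣ m → (X : ℝ) ^ (1 / (R : ℝ)) < (p : ℝ)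

lemma congruent_of (n : ℕ) (h : Pool.Agent.Y859.SP.Cg.IsCong n) : Congruent n := by
  obtain ⟨a, b, c, ha, hb, hc, h1, h2⟩ := h
  -- common denominator
  obtain ⟨A, B, C, D, hA, hB, hC, hD, eA, eB, eC⟩ : ∃ A B C D : ℕ, 0 < A ∧ 0 < B ∧ 0 < C ∧
      0 < D ∧ a = (A : ℚ) / D ∧ b = (B : ℚ) / D ∧ c = (C : ℚ) / D := by
    have na : (0 : ℤ) < a.num := Rat.num_pos.2 ha
    have nb : (0 : ℤ) < b.num := Rat.num_pos.2 hb
    have nc : (0 : ℤ) < c.num := Rat.num_pos.2 hc
    have ea : ((a.num.natAbs : ℕ) : ℚ) = a.num := by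
      rw [Nat.cast_natAbs, abs_of_pos na]
    have eb : ((b.num.natAbs : ℕ) : ℚ) = b.num := by
      rw [Nat.cast_natAbs, abs_of_pos nb]
    have ec : ((c.num.natAbs : ℕ) : ℚ) = c.num := by
      rw [Nat.cast_natAbs, abs_of_pos nc]
    have da : (a.den : ℚ) ≠ 0 := by exact_mod_cast a.den_nz
    have db : (b.den : ℚ) ≠ 0 := by exact_mod_cast b.den_nz
    have dc : (c.den : ℚ) ≠ 0 := by exact_mod_cast c.den_nz
    have qa := Rat.num_div_den a
    have qb := Rat.num_div_den b
    have qc := Rat.num_div_den c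
    refine ⟨a.num.natAbs * (b.den * c.den), b.num.natAbs * (a.den * c.den),
      c.num.natAbs * (a.den * b.den), a.den * b.den * c.den, ?_, ?_, ?_, ?_, ?_, ?_, ?_⟩
    · have := a.pos; have := b.pos; have := c.pos
      have : 0 < a.num.natAbs := by omega
      positivity
    · have := a.pos; have := b.pos; have := c.pos
      have : 0 < b.num.natAbs := by omega
      positivity
    · have := a.pos; have := b.pos; have := c.pos
      have : 0 < c.num.natAbs := by omega
      positivity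
    · have := a.pos; have := b.pos; have := c.pos
      positivity
    · push_cast
      rw [ea]
      nth_rewrite 1 [← qa]
      field_simp
    · push_cast
      rw [eb]
      nth_rewrite 1 [← qb]
      field_simp
    · push_cast
      rw [ec]
      nth_rewrite 1 [← qc]
      field_simp
  have hDq : (D : ℚ) ≠ 0 := by positivity
  rw [eA, eB, eC] at h1
  rw [eA, eB] at h2
  have g1 : A ^ 2 + B ^ 2 = C ^ 2 := by
    have : (A : ℚ) ^ 2 + (B : ℚ) ^ 2 = (C : ℚ) ^ 2 := by
      field_simp at h1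
      exact h1
    exact_mod_cast this
  have g2 : 2 * n * D ^ 2 = A * B := by
    have : 2 * (n : ℚ) * (D : ℚ) ^ 2 = A * B := by
      field_simp at h2
      linarith
    exact_mod_cast this
  have hne : A ≠ B := by
    intro hAB
    rw [hAB] at g1
    have g3 : (2 : ℕ) * B ^ 2 = C ^ 2 := by omega
    have h4 : Irrational (Real.sqrt 2) := irrational_sqrt_two
    apply h4
    refine ⟨(C : ℚ) / B, ?_⟩
    have hB' : (B : ℝ) ≠ 0 := by positivity
    push_cast
    symm
    rw [Real.sqrt_eq_iff_mul_self_eq (by norm_num) (by positivity)]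
    have : (2 : ℝ) * (B : ℝ) ^ 2 = (C : ℝ) ^ 2 := by exact_mod_cast g3
    field_simp
    linarith
  rcases lt_or_gt_of_ne hne with hlt | hlt
  · obtain ⟨s, rfl⟩ := Nat.exists_eq_add_of_lt hlt
    refine ⟨C, 2 * D, 2 * A + s + 1, s + 1, hC, by positivity, by positivity, by positivity, ?_, ?_⟩
    · nlinarith
    · nlinarith
  · obtain ⟨s, rfl⟩ := Nat.exists_eq_add_of_lt hlt
    refine ⟨C, 2 * D, 2 * B + s + 1, s + 1, hC, by positivity, by positivity, by positivity, ?_, ?_⟩
    · nlinarith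
    · nlinarith

/-- **Every admissible squarefree `B ≤ X ^ (1/2 - ε)` divides many squarefree congruent numbers
`n ≤ X` in each of the classes `5, 6, 7` modulo `8`.**  Let `0 < ε ≤ 1/2`.  There are `R` and `X₀`
such that for all `X ≥ X₀`, all squarefree `B ≤ X ^ (1/2 - ε)` and `r ∈ {5, 6, 7}`, `r = 6` if `B`
is even, at least `X ^ (1/2 - ε) / B` squarefree congruent numbers `n ≤ X` satisfy `n ≡ r` modulo
`8` and `n = B m`, where `m` has at most `R` prime factors, the odd ones larger than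
`X ^ (1 / R)`. -/
theorem result (ε : ℝ) (hε : 0 < ε) (hε1 : ε ≤ 1 / 2) :
    ∃ R X₀ : ℕ, 1 ≤ R ∧ ∀ X : ℕ, X₀ ≤ X → ∀ B : ℕ, Squarefree B →
      (B : ℝ) ≤ (X : ℝ) ^ (1 / 2 - ε) → ∀ r : ℕ, (r = 5 ∨ r = 6 ∨ r = 7) → (Even B → r = 6) →
        (X : ℝ) ^ (1 / 2 - ε) / B ≤
          ({n : ℕ | n ≤ X ∧ n % 8 = r ∧ Squarefree n ∧ Congruent n ∧
            ∃ m, n = B * m ∧ AlmostPrime R X m}.ncard : ℝ) := by
  obtain ⟨R, X₀, hR, h⟩ := Pool.Agent.Y859.MU.main ε hε hε1
  refine ⟨R, X₀, hR, ?_⟩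
  intro X hX B hBsq hBX r hr hrB
  have hfin : {n : ℕ | n ≤ X ∧ n % 8 = r ∧ Squarefree n ∧ Congruent n ∧
      ∃ m, n = B * m ∧ AlmostPrime R X m}.Finite :=
    (Set.finite_Iic X).subset fun n hn => hn.1
  by_cases h6 : r = 6
  · refine ((h X hX B hBsq hBX).2 6 (by norm_num) (by norm_num)).trans ?_
    have := Set.ncard_le_ncard (s := {n : ℕ | n ≤ X ∧ n % 16 = 6 ∧ Squarefree n ∧
      Pool.Agent.Y859.SP.Cg.IsCong n ∧ ∃ m, n = B * m ∧ Pool.Agent.Y859.MU.Few R X m})
      (t := {n : ℕ | n ≤ X ∧ n % 8 = r ∧ Squarefree n ∧ Congruent n ∧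
        ∃ m, n = B * m ∧ AlmostPrime R X m}) (fun n hn => by
        obtain ⟨g1, g2, g3, g4, m, g5, g6⟩ := hn
        exact ⟨g1, by omega, g3, congruent_of n g4, m, g5, g6.1, g6.2⟩) hfin
    exact_mod_cast this
  · have hBo : Odd B := by
      rcases Nat.even_or_odd B with hB | hB
      · exact absurd (hrB hB) h6
      · exact hB
    have hro : Odd r := by
      rw [Nat.odd_iff]
      omega
    refine ((h X hX B hBsq hBX).1 hBo r hro (by omega)).trans ?_
    have := Set.ncard_le_ncard (s := {n : ℕ | n ≤ X ∧ n % 8 = r ∧ Squarefree n ∧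
      Pool.Agent.Y859.SP.Cg.IsCong n ∧ ∃ m, n = B * m ∧ Pool.Agent.Y859.MU.Few R X m})
      (t := {n : ℕ | n ≤ X ∧ n % 8 = r ∧ Squarefree n ∧ Congruent n ∧
        ∃ m, n = B * m ∧ AlmostPrime R X m}) (fun n hn => by
        obtain ⟨g1, g2, g3, g4, m, g5, g6⟩ := hn
        exact ⟨g1, g2, g3, congruent_of n g4, m, g5, g6.1, g6.2⟩) hfin
    exact_mod_cast this

end Pool.Agent.Results.MP_8efaaa_nt.EveryDivisor
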