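import Pool.Agent.Y675.LN.Forms

/-!
MP_8efaaa_nt (congruent numbers in the classes 5, 6, 7 mod 8): squarefree congruent numbers in
every residue class, exponent `4 + ε` in place of `16`.
-/

set_option autoImplicit false

namespace Pool.Agent.Results.MP_8efaaa_nt.LinnikClasses

/-- `x² + a y² = z²`, `x² - a y² = t²` is solvable in positive integers -/
def Congruent (a : ℕ) : Prop :=
  ∃ x y z t : ℕ, 0 < x ∧ 0 < y ∧ 0 < z ∧ 0 < t ∧ x ^ 2 + a * y ^ 2 = z ^ 2 ∧
    x ^ 2 = a * y ^ 2 + t ^ 2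

lemma congruent_of (n : ℕ) (h : Pool.Agent.Y675.LN.IsCongruent n) : Congruent n := by
  obtain ⟨a, b, c, ha, hb, hc, h1, h2⟩ := h
  -- common denominator
  obtain ⟨A, B, C, D, hA, hB, hC, hD, eA, eB, eC⟩ : ∃ A B C D : ℕ, 0 < A ∧ 0 < B ∧ 0 < C ∧
      0 < D ∧ a = (A : ℚ) / D ∧ b = (B : ℚ) / D ∧ c = (C : ℚ) / D := by
    have na : (0 : ℤ) < a.num := Rat.num_pos.2 ha
    have nb : (0 : ℤ) < b.num := Rat.num_pos.2 hb
    have nc : (0 : ℤ) < c.num := Rat.num_pos.2 hc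
    have ea : ((a.num.natAbs : ℕ) : ℚ) = a.num := by
      rw [Nat.cast_natAbs, abs_of_pos na]
    have eb : ((b.num.natAbs : ℕ) : ℚ) = b.num := by
      rw [Nat.cast_natAbs, abs_of_pos nb]
    have ec : ((c.num.natAbs : ℕ) : ℚ) = c.num := by
      rw [Nat.cast_natAbs, abs_of_pos nc]
    have da : (a.den : ℚ) ≠ 0 := by exact_mod_cast a.den_nz
    have db : (b.den : ℚ) ≠ 0 := by exact_mod_cast b.den_nz
    have dc : (c.den : ℚ) ≠ 0 := by exact_mod_cast c.den_nz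
    have qa := Rat.num_div_den a
    have qb := Rat.num_div_den b
    have qc := Rat.num_div_den c
    refine ⟨a.num.natAbs * (b.den * c.den), b.num.natAbs * (a.den * c.den),
      c.num.natAbs * (a.den * b.den), a.den * b.den * c.den, ?_, ?_, ?_, ?_, ?_, ?_, ?_⟩
    · have := a.pos; have := b.pos; have := c.pos
      have : 0 < a.num.natAbs := by omega
      positivity
    · have := a.pos; have := b.pos; have := c.pos
      have : 0 < b.num.natAbs := by omega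
      positivity
    · have := a.pos; have := b.pos; have := c.pos
      have : 0 < c.num.natAbs := by omega
      positivity
    · have := a.pos; have := b.pos; have := c.pos
      positivity
    · push_cast
      rw [ea]
      nth_rewrite 1 [← qa]
      field_simp
    · push_cast
      rw [eb]
      nth_rewrite 1 [← qb]
      field_simp
    · push_cast
      rw [ec]
      nth_rewrite 1 [← qc]
      field_simp
  have hDq : (D : ℚ) ≠ 0 := by positivity
  rw [eA, eB, eC] at h1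
  rw [eA, eB] at h2
  have g1 : A ^ 2 + B ^ 2 = C ^ 2 := by
    have : (A : ℚ) ^ 2 + (B : ℚ) ^ 2 = (C : ℚ) ^ 2 := by
      field_simp at h1
      exact h1
    exact_mod_cast this
  have g2 : 2 * n * D ^ 2 = A * B := by
    have : 2 * (n : ℚ) * (D : ℚ) ^ 2 = A * B := by
      field_simp at h2
      linarith
    exact_mod_cast this
  have hne : A ≠ B := by
    intro hAB
    rw [hAB] at g1
    have g3 : (2 : ℕ) * B ^ 2 = C ^ 2 := by omega
    have h4 : Irrational (Real.sqrt 2) := irrational_sqrt_two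
    apply h4
    refine ⟨(C : ℚ) / B, ?_⟩
    have hB' : (B : ℝ) ≠ 0 := by positivity
    push_cast
    symm
    rw [Real.sqrt_eq_iff_mul_self_eq (by norm_num) (by positivity)]
    have : (2 : ℝ) * (B : ℝ) ^ 2 = (C : ℝ) ^ 2 := by exact_mod_cast g3
    field_simp
    linarith
  rcases lt_or_gt_of_ne hne with hlt | hlt
  · obtain ⟨s, rfl⟩ := Nat.exists_eq_add_of_lt hlt
    refine ⟨C, 2 * D, 2 * A + s + 1, s + 1, hC, by positivity, by positivity, by positivity, ?_, ?_⟩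
    · nlinarith
    · nlinarith
  · obtain ⟨s, rfl⟩ := Nat.exists_eq_add_of_lt hlt
    refine ⟨C, 2 * D, 2 * B + s + 1, s + 1, hC, by positivity, by positivity, by positivity, ?_, ?_⟩
    · nlinarith
    · nlinarith

/-- Let `ε > 0`.  There are `C > 0` and `X₀` such that for all `q ≥ 1` and all squarefree `m ≡ 5`,
`6` or `7` modulo `8`: some squarefree congruent `n ≤ C q ^ (4 + ε)` satisfies `n ≡ m` modulo `8 q`,
and for all `X ≥ X₀` with `X ≥ q ^ (4 + ε)` at least `X ^ (1/2 - ε) / q` squarefree congruent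
numbers `n ≤ X` satisfy `n ≡ m` modulo `8 q`. -/
theorem result (ε : ℝ) (hε : 0 < ε) :
    ∃ C : ℝ, 0 < C ∧ ∃ X₀ : ℝ, ∀ q : ℕ, 1 ≤ q → ∀ m : ℕ, Squarefree m →
      (m % 8 = 5 ∨ m % 8 = 6 ∨ m % 8 = 7) →
      (∃ n : ℕ, (n : ℝ) ≤ C * (q : ℝ) ^ (4 + ε) ∧ Squarefree n ∧ n ≡ m [MOD 8 * q] ∧
        Congruent n) ∧
      (∀ X : ℝ, X₀ ≤ X → (q : ℝ) ^ (4 + ε) ≤ X → X ^ (1 / 2 - ε) / q ≤
        ({n : ℕ | (n : ℝ) ≤ X ∧ Squarefree n ∧ n ≡ m [MOD 8 * q] ∧ Congruent n}.ncard : ℝ)) := by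
  obtain ⟨C, hC, h1⟩ := Pool.Agent.Y675.LN.least_d 8 (by norm_num) ε hε
  obtain ⟨X₀, h2⟩ := Pool.Agent.Y675.LN.main_d 8 (by norm_num) ε hε
  refine ⟨C, hC, X₀, fun q hq m hm _ => ⟨?_, ?_⟩⟩
  · obtain ⟨n, g1, g2, g3, g4⟩ := h1 q hq m hm
    exact ⟨n, g1, g2, g3, congruent_of n g4⟩
  · intro X hX hqX
    refine (h2 X hX q hq hqX m hm).trans ?_
    have hfin : {n : ℕ | (n : ℝ) ≤ X ∧ Squarefree n ∧ n ≡ m [MOD 8 * q] ∧ Congruent n}.Finite := by
      apply (Set.finite_Iic ⌊X⌋₊).subset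
      intro n hn
      exact Nat.le_floor hn.1
    have := Set.ncard_le_ncard (s := {n : ℕ | (n : ℝ) ≤ X ∧ Squarefree n ∧
      n ≡ m [MOD 8 * q] ∧ Pool.Agent.Y675.LN.IsCongruent n}) (t := {n : ℕ | (n : ℝ) ≤ X ∧
        Squarefree n ∧ n ≡ m [MOD 8 * q] ∧ Congruent n}) (fun d hd =>
        ⟨hd.1, hd.2.1, hd.2.2.1, congruent_of d hd.2.2.2⟩) hfin
    exact_mod_cast this

end Pool.Agent.Results.MP_8efaaa_nt.LinnikClasses
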